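import Mathlib

namespace Pool.Agent.Results.MP_7fa642_al.No

open Monoid Monoid.CoprodI Pointwise

/-- least number of proper (nonempty) subsemigroups covering `G`; `⊤` if there is no finite cover -/
noncomputable def sigmaS (G : Type) [Group G] : ℕ∞ :=
  sInf {n | ∃ T : Finset (Subsemigroup G), (T.card : ℕ∞) = n ∧
    (∀ S ∈ T, (S : Set G).Nonempty ∧ S ≠ ⊤) ∧ ∀ g : G, ∃ S ∈ T, g ∈ S}

/-- least number of proper subgroups covering `G`; `⊤` if there is no finite cover -/
noncomputable def sigmaG (G : Type) [Group G] : ℕ∞ :=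
  sInf {n | ∃ T : Finset (Subgroup G), (T.card : ℕ∞) = n ∧
    (∀ S ∈ T, S ≠ ⊤) ∧ ∀ g : G, ∃ S ∈ T, g ∈ S}

abbrev C := Multiplicative (ZMod 103)
abbrev M : Bool → Type := fun _ => C
abbrev G := CoprodI M
abbrev L := List (Σ i, M i)

def f (s : ZMod 103) : ℤ := if s = 0 then 0 else 2 * (s.val : ℤ) - 103

lemma f_neg : ∀ s, f (-s) = - f s := by decide +kernel
lemma f_add : ∀ s t, f s + f t - 103 ≤ f (s + t) := by decide +kernel
lemma f_c : ∀ s, ((f s : ℤ) : ZMod 103) = 2 * s := by decide +kernel
lemma f_p : ∀ s, s ≠ 0 → ((f s : ℤ) : ZMod 2) = 1 := by decide +kernel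

def F (μ : Bool → ZMod 103) (l : L) : ℤ := (l.map fun x => f (μ x.1 * x.2.toAdd)).sum
def P (l : L) : G := (l.map fun x => of x.2).prod
def Red (l : L) : Prop := (∀ x ∈ l, x.2 ≠ 1) ∧ (l.map Sigma.fst).IsChain (· ≠ ·)
def D (μ : Bool → ZMod 103) (g : G) : ℤ := F μ (Word.equiv g).toList

lemma D_P (μ) {l : L} (h : Red l) : D μ (P l) = F μ l := by
  let w : Word M := ⟨l, h.1, (List.isChain_map _).1 h.2⟩
  have : Word.equiv (P l) = w := Word.equiv.apply_symm_apply w
  unfold D; rw [this]

lemma red_w (g : G) : Red (Word.equiv g).toList :=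
  ⟨(Word.equiv g).ne_one, (List.isChain_map _).2 (Word.equiv g).chain_ne⟩

lemma P_w (g : G) : P (Word.equiv g).toList = g := Word.equiv.symm_apply_apply g

lemma F_app (μ) (a b : L) : F μ (a ++ b) = F μ a + F μ b := by simp [F]
lemma P_app (a b : L) : P (a ++ b) = P a * P b := by simp [P]

lemma key (μ) (l₁ : L) : ∀ l₂ : L, Red l₁ → Red l₂ → F μ l₁ + F μ l₂ - 103 ≤ D μ (P l₁ * P l₂) := by
  induction l₁ using List.reverseRecOn with
  | nil => intro l₂ _ h; simp [P, F] ; have := D_P μ h; simp [P, F] at this; omega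
  | append_singleton r x ih =>
    intro l₂ h₁ h₂
    cases l₂ with
    | nil => have := D_P μ h₁; simp [P, F] at this ⊢; omega
    | cons y t =>
      obtain ⟨i, a⟩ := x
      obtain ⟨j, b⟩ := y
      have hr : Red r := ⟨fun x hx => h₁.1 x (by simp [hx]), by
        have := h₁.2; rw [List.map_append] at this; exact this.left_of_append⟩
      have ht : Red t := ⟨fun x hx => h₂.1 x (by simp [hx]), by
        have := h₂.2; rw [List.map_cons] at this; exact this.tail⟩
      by_cases hij : i = j
      · subst hij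
        by_cases hab : a * b = 1
        · have e : P (r ++ [⟨i, a⟩]) * P (⟨i, b⟩ :: t) = P r * P t := by
            have : (of a : G) * of b = 1 := by rw [← map_mul, hab, map_one]
            simp only [P, List.map_append, List.map_cons, List.prod_append, List.prod_cons,
              List.map_nil, List.prod_nil, mul_one]
            rw [mul_assoc, ← mul_assoc (of a), this, one_mul]
          have hb : b.toAdd = - a.toAdd := by
            have := congrArg Multiplicative.toAdd hab
            simp at this; linear_combination this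
          have := ih t hr ht
          rw [e]
          simp only [F, List.map_append, List.map_cons, List.sum_append, List.sum_cons,
            List.map_nil, List.sum_nil] at this ⊢
          rw [hb, mul_neg, f_neg]; omega
        · have hR : Red (r ++ ⟨i, a * b⟩ :: t) := by
            refine ⟨fun x hx => ?_, ?_⟩
            · simp only [List.mem_append, List.mem_cons] at hx
              rcases hx with hx | rfl | hx
              exacts [hr.1 x hx, hab, ht.1 x hx]
            · have h1 := h₁.2; have h2 := h₂.2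
              simp only [List.map_append, List.map_cons, List.map_nil] at h1 h2 ⊢
              exact List.isChain_split.2 ⟨h1, h2⟩
          have e : P (r ++ [⟨i, a⟩]) * P (⟨i, b⟩ :: t) = P (r ++ ⟨i, a * b⟩ :: t) := by
            simp only [P, List.map_append, List.map_cons, List.prod_append, List.prod_cons,
              List.map_nil, List.prod_nil, mul_one, map_mul, mul_assoc]
          rw [e, D_P μ hR]
          simp only [F, List.map_append, List.map_cons, List.sum_append, List.sum_cons,
            List.map_nil, List.sum_nil, toAdd_mul, mul_add]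
          have := f_add (μ i * a.toAdd) (μ i * b.toAdd)
          omega
      · have hR : Red ((r ++ [⟨i, a⟩]) ++ ⟨j, b⟩ :: t) := by
          refine ⟨fun x hx => ?_, ?_⟩
          · rcases List.mem_append.1 hx with hx | hx
            exacts [h₁.1 x hx, h₂.1 x hx]
          · have h1 := h₁.2; have h2 := h₂.2
            simp only [List.map_append, List.map_cons, List.map_nil, List.append_assoc,
              List.cons_append, List.nil_append] at h1 h2 ⊢
            exact List.isChain_append_cons_cons.2 ⟨h1, hij, h2⟩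
        rw [← P_app, D_P μ hR, F_app μ _ (⟨j, b⟩ :: t)]; omega

lemma D_mul (μ) (g h : G) : D μ g + D μ h - 103 ≤ D μ (g * h) := by
  have := key μ _ _ (red_w g) (red_w h)
  rwa [P_w, P_w] at this

lemma D_one (μ) : D μ 1 = 0 := by
  have := D_P μ (l := []) ⟨by simp, by simp⟩
  simpa [P, F] using this

def S (μ : Bool → ZMod 103) : Subsemigroup G where
  carrier := {g | g = 1 ∨ 103 ≤ D μ g}
  mul_mem' := by
    rintro a b (rfl | ha) (rfl | hb)
    · left; simp
    · right; simpa
    · right; simpa
    · right; have := D_mul μ a b; omega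

def gen (b : Bool) : G := of (M := M) (i := b) (Multiplicative.ofAdd 1)

lemma gen_ne (b) : gen b ≠ 1 := by
  intro h
  have : (Multiplicative.ofAdd 1 : C) = 1 := of_injective (M := M) b (h.trans (map_one _).symm)
  revert this; decide

lemma S_ne (μ) : S μ ≠ ⊤ := by
  intro h
  have h1 : gen true ∈ S μ := h ▸ Subsemigroup.mem_top _
  have h2 : (gen true)⁻¹ ∈ S μ := h ▸ Subsemigroup.mem_top _
  rcases h1 with h1 | h1
  · exact gen_ne _ h1
  rcases h2 with h2 | h2
  · exact gen_ne _ (inv_eq_one.1 h2)
  have := D_mul μ (gen true) (gen true)⁻¹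
  rw [mul_inv_cancel, D_one] at this; omega

def pr (b : Bool) : G →* C := lift fun i => if i = b then MonoidHom.id C else 1

def K (b : Bool) : Subsemigroup G := (pr b).ker.toSubmonoid.toSubsemigroup

lemma K_ne (b) : K b ≠ ⊤ := by
  intro h
  have h1 : gen b ∈ K b := h ▸ Subsemigroup.mem_top _
  have : pr b (gen b) = 1 := h1
  simp only [pr, gen, lift_of, if_true, MonoidHom.id_apply] at this
  revert this; decide

def X (b : Bool) (i : ZMod 103) (l : L) : ℤ :=
  (l.map fun x => if x.1 = b then f (i * x.2.toAdd) else 0).sum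
def Nn (b : Bool) (l : L) : ZMod 2 := (l.map fun x => if x.1 = b then 1 else 0).sum

lemma F_X (μ) (l : L) : F μ l = X true (μ true) l + X false (μ false) l := by
  induction l with
  | nil => simp [F, X]
  | cons x t ih =>
    obtain ⟨i, a⟩ := x
    simp only [F, X, List.map_cons, List.sum_cons] at ih ⊢
    rw [ih]; cases i <;> simp <;> ring

lemma X_neg (b i) (l : L) : X b (-i) l = - X b i l := by
  induction l with
  | nil => simp [X]
  | cons x t ih =>
    simp only [X, List.map_cons, List.sum_cons] at ih ⊢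
    rw [ih, neg_mul, f_neg]; split_ifs <;> ring

lemma X_c (b i) (l : L) : ((X b i l : ℤ) : ZMod 103) = 2 * i * (pr b (P l)).toAdd := by
  induction l with
  | nil => simp [X, P]
  | cons x t ih =>
    obtain ⟨j, a⟩ := x
    simp only [X, P, List.map_cons, List.sum_cons, List.prod_cons, map_mul, toAdd_mul] at ih ⊢
    rw [Int.cast_add, ih]
    simp only [pr, lift_of]
    split_ifs
    · rw [f_c]; simp; ring
    · simp

instance : Fact (Nat.Prime 103) := ⟨by norm_num⟩

lemma X_p (b i) (hi : i ≠ 0) (l : L) (h : ∀ x ∈ l, x.2 ≠ 1) : ((X b i l : ℤ) : ZMod 2) = Nn b l := by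
  induction l with
  | nil => simp [X, Nn]
  | cons x t ih =>
    have := ih fun x hx => h x (by simp [hx])
    simp only [X, Nn, List.map_cons, List.sum_cons] at this ⊢
    rw [Int.cast_add, this]
    split_ifs
    · rw [f_p _ (mul_ne_zero hi (by simpa using h x (by simp)))]
    · simp

def I : Fin 5 → ZMod 103 := ![1, 2, 3, 9, 26]

lemma I_ne : ∀ j, I j ≠ 0 := by decide

lemma fin_check : ∀ r : ZMod 103, r ≠ 0 → ∀ n : ZMod 2, ∃ j : Fin 5, ∀ k : Fin 103,
    ¬ ((((k.val : ℤ) - 51 : ℤ) : ZMod 103) = 2 * I j * r ∧ (((k.val : ℤ) - 51 : ℤ) : ZMod 2) = n) := by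
  decide +kernel

def J (j : Fin 5 × Bool) : ZMod 103 := if j.2 then I j.1 else - I j.1

lemma big (b) (g : G) (hg : pr b g ≠ 1) : ∃ j, 103 ≤ 2 * X b (J j) (Word.equiv g).toList := by
  set l := (Word.equiv g).toList
  obtain ⟨j, hj⟩ := fin_check (pr b g).toAdd (by simpa using hg) (Nn b l)
  have h1 := X_c b (I j) l
  rw [P_w] at h1
  have h2 := X_p b (I j) (I_ne j) l (red_w g).1
  by_cases h : 103 ≤ 2 * X b (I j) l
  · exact ⟨(j, true), h⟩
  by_cases h' : 103 ≤ 2 * X b (-I j) l
  · exact ⟨(j, false), h'⟩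
  rw [X_neg] at h'
  exfalso
  apply hj ⟨(X b (I j) l + 51).toNat, by omega⟩
  have : (((X b (I j) l + 51).toNat : ℤ) - 51) = X b (I j) l := by omega
  simp only [this]
  exact ⟨h1, h2⟩

def fam : ((Fin 5 × Bool) × (Fin 5 × Bool)) ⊕ Bool → Subsemigroup G
  | .inl p => S fun b => if b then J p.1 else J p.2
  | .inr b => K b

lemma upper : sigmaS G ≤ 102 := by
  classical
  refine le_trans (b := ((Finset.univ.image fam).card : ℕ∞))
    (sInf_le ⟨Finset.univ.image fam, rfl, ?_, ?_⟩) ?_
  · intro T hT
    obtain ⟨i, -, rfl⟩ := Finset.mem_image.1 hT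
    rcases i with p | b
    · exact ⟨⟨1, Or.inl rfl⟩, S_ne _⟩
    · exact ⟨⟨1, (pr b).ker.one_mem⟩, K_ne _⟩
  · intro g
    by_cases h1 : pr true g = 1
    · exact ⟨fam (.inr true), Finset.mem_image_of_mem _ (Finset.mem_univ _), h1⟩
    by_cases h2 : pr false g = 1
    · exact ⟨fam (.inr false), Finset.mem_image_of_mem _ (Finset.mem_univ _), h2⟩
    obtain ⟨j, hj⟩ := big _ g h1
    obtain ⟨k, hk⟩ := big _ g h2
    refine ⟨fam (.inl (j, k)), Finset.mem_image_of_mem _ (Finset.mem_univ _), Or.inr ?_⟩
    simp only [D, F_X, if_true, Bool.false_eq_true, if_false]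
    omega
  · have := Finset.card_image_le (s := Finset.univ) (f := fam)
    simp at this
    exact_mod_cast this

lemma of_pow (i : Bool) (a : M i) : (of a : G) ^ 103 = 1 := by
  rw [← map_pow]
  have : a ^ 103 = 1 := by
    have := pow_card_eq_one' (x := a)
    simpa using this
  rw [this, map_one]

lemma pow_mem {T : Subsemigroup G} {x : G} (hx : x ∈ T) (n : ℕ) : x ^ (n + 1) ∈ T := by
  induction n with
  | zero => simpa
  | succ n ih => rw [pow_succ]; exact T.mul_mem ih hx

lemma top_of {T : Subsemigroup G} (h : ∀ g, g ∈ T ∨ g⁻¹ ∈ T) : T = ⊤ := by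
  have h1 : (1 : G) ∈ T := by simpa using h 1
  have h2 : ∀ i (a : M i), (of a : G) ∈ T := by
    intro i a
    rcases h (of a) with h | h
    · exact h
    · have := pow_mem h 101
      have e : ((of a : G)⁻¹) ^ (101 + 1) = of a := by
        rw [inv_pow, inv_eq_iff_mul_eq_one, ← pow_succ]; exact of_pow i a
      rwa [e] at this
  rw [eq_top_iff]
  rintro g -
  induction g using CoprodI.induction_on with
  | one => exact h1
  | of i a => exact h2 i a
  | mul x y hx hy => exact T.mul_mem hx hy

lemma ne_two : sigmaS G ≠ 2 := by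
  intro h
  have hne : {n | ∃ T : Finset (Subsemigroup G), (T.card : ℕ∞) = n ∧
      (∀ S ∈ T, (S : Set G).Nonempty ∧ S ≠ ⊤) ∧ ∀ g : G, ∃ S ∈ T, g ∈ S}.Nonempty := by
    by_contra hc
    rw [Set.not_nonempty_iff_eq_empty] at hc
    unfold sigmaS at h
    rw [hc] at h; simp at h
  have hm := csInf_mem hne
  unfold sigmaS at h
  rw [h] at hm
  obtain ⟨T, hT, hp, hc⟩ := hm
  classical
  obtain ⟨A, B, -, rfl⟩ := Finset.card_eq_two.1 (by exact_mod_cast hT : T.card = 2)
  have hA := (hp A (by simp)).2
  have hB := (hp B (by simp)).2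
  have hc' : ∀ g, g ∈ A ∨ g ∈ B := by simpa using hc
  have h1 : ∃ y, y ∉ A ∧ y⁻¹ ∉ A := by
    by_contra hc; push Not at hc
    exact hA (top_of fun g => by by_cases h : g ∈ A; exacts [Or.inl h, Or.inr (hc g h)])
  have h2 : ∃ x, x ∉ B ∧ x⁻¹ ∉ B := by
    by_contra hc; push Not at hc
    exact hB (top_of fun g => by by_cases h : g ∈ B; exacts [Or.inl h, Or.inr (hc g h)])
  obtain ⟨y, hy, hy'⟩ := h1
  obtain ⟨x, hx, hx'⟩ := h2
  rcases hc' (x * y) with h | h
  · have := A.mul_mem ((hc' _).resolve_right hx') h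
    simp at this; exact hy this
  · have := B.mul_mem h ((hc' _).resolve_left hy')
    simp at this; exact hx this

lemma index_big (H : Subgroup G) (hH : H ≠ ⊤) : H.index = 0 ∨ 103 ≤ H.index := by
  by_contra hc
  push Not at hc
  obtain ⟨h0, hl⟩ := hc
  have : H.FiniteIndex := ⟨h0⟩
  have : Finite (G ⧸ H) := Subgroup.finite_quotient_of_finiteIndex
  let φ := MulAction.toPermHom G (G ⧸ H)
  have hc : Nat.card (Equiv.Perm (G ⧸ H)) = H.index.factorial := Nat.card_perm
  have h1 : ∀ i (a : M i), φ (of a) = 1 := by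
    intro i a
    have d1 : orderOf (φ (of a)) ∣ 103 := orderOf_dvd_of_pow_eq_one (by rw [← map_pow, of_pow, map_one])
    have d2 : orderOf (φ (of a)) ∣ H.index.factorial := hc ▸ orderOf_dvd_natCard _
    rcases (Nat.dvd_prime (by norm_num)).1 d1 with h | h
    · exact orderOf_eq_one_iff.1 h
    · rw [h, Nat.Prime.dvd_factorial (by norm_num)] at d2; omega
  have h2 : ∀ g, φ g = 1 := by
    intro g
    induction g using CoprodI.induction_on with
    | one => simp
    | of i a => exact h1 i a
    | mul x y hx hy => rw [map_mul, hx, hy, one_mul]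
  apply hH
  rw [eq_top_iff]
  rintro g -
  have := congrArg (fun σ : Equiv.Perm (G ⧸ H) => σ ((1 : G) : G ⧸ H)) (h2 g⁻¹)
  simp only [φ, MulAction.toPermHom_apply, MulAction.toPerm_apply, Equiv.Perm.coe_one, id,
    MulAction.Quotient.smul_mk, smul_eq_mul, mul_one] at this
  simpa using QuotientGroup.eq.1 this

lemma lower : 103 ≤ sigmaG G := by
  refine le_sInf ?_
  rintro n ⟨T, rfl, hp, hc⟩
  have hcov : ⋃ i ∈ T, (1 : G) • ((i : Subgroup G) : Set G) = Set.univ := by
    ext g; simpa using hc g
  have h1 := Subgroup.one_le_sum_inv_index_of_leftCoset_cover (H := fun i : Subgroup G => i)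
    (g := fun _ => 1) hcov
  have h2 : ∑ i ∈ T, ((i.index : ℚ))⁻¹ ≤ T.card • (103 : ℚ)⁻¹ := by
    refine Finset.sum_le_card_nsmul _ _ _ fun i hi => ?_
    rcases index_big i (hp i hi) with h | h
    · simp [h]
    · exact inv_anti₀ (by norm_num) (by exact_mod_cast h)
  have h3 : (103 : ℚ) ≤ T.card := by
    have := h1.trans h2
    rw [nsmul_eq_mul, ← div_eq_mul_inv, le_div_iff₀ (by norm_num)] at this
    simpa using this
  exact_mod_cast h3

theorem result : ∃ (G : Type) (_ : Group G), sigmaS G ≠ 2 ∧ sigmaS G < sigmaG G :=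
  ⟨G, inferInstance, ne_two, lt_of_le_of_lt upper (lt_of_lt_of_le (by norm_num) lower)⟩

end Pool.Agent.Results.MP_7fa642_al.No
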